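import Mathlib

/-!
# Integer parts of the multiples of almost every real vector
-/

set_option autoImplicit false

namespace Pool.Agent.Q221.PH

open MeasureTheory Filter Set

open scoped ENNReal

/-- the volume of the set of the vectors with given integer parts after scaling -/
lemma vol_cell {d : ℕ} {t : ℝ} (ht : 0 < t) (v : Fin d → ℤ) :
    volume {x : Fin d → ℝ | ∀ l, ⌊t * x l⌋ = v l} = ENNReal.ofReal ((t⁻¹) ^ d) := by
  have h1 : {x : Fin d → ℝ | ∀ l, ⌊t * x l⌋ = v l} =
      Set.pi univ fun l => Set.Ico ((v l : ℝ) / t) (((v l : ℝ) + 1) / t) := by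
    ext x
    simp only [Set.mem_ofPred_eq, Set.mem_pi, Set.mem_univ, true_imp_iff, Set.mem_Ico,
      Int.floor_eq_iff]
    refine forall_congr' fun l => ?_
    rw [div_le_iff₀ ht, lt_div_iff₀ ht, mul_comm t]
  rw [h1, Real.volume_pi_Ico]
  have h2 : ∀ l : Fin d, ENNReal.ofReal (((v l : ℝ) + 1) / t - (v l : ℝ) / t) =
      ENNReal.ofReal (t⁻¹) := by
    intro l
    congr 1
    field_simp
    ring
  rw [Finset.prod_congr rfl fun l _ => h2 l, Finset.prod_const, Finset.card_univ,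
    Fintype.card_fin, ENNReal.ofReal_pow (by positivity)]

/-- a Borel-Cantelli lemma for the integer parts of the multiples of almost every vector -/
theorem ae_floor {d : ℕ} (t : ℕ → ℝ) (ht : ∀ n, 1 ≤ t n) (bad : ℕ → (Fin d → ℤ) → Prop)
    (ε : ℕ → ℝ) (hε0 : ∀ n, 0 ≤ ε n) (hε : Summable ε)
    (h : ∀ (n : ℕ) (c : Fin d → ℤ) (N : ℕ), t n ≤ N → ∀ Z : Finset (Fin d → ℤ),
      (∀ v ∈ Z, (∀ l, c l ≤ v l ∧ v l < c l + N) ∧ bad n v) → (Z.card : ℝ) ≤ ε n * (N : ℝ) ^ d) :
    ∀ᵐ x : Fin d → ℝ, ∀ᶠ n in atTop, ¬ bad n fun l => ⌊t n * x l⌋ := by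
  classical
  have key : ∀ k : Fin d → ℤ, ∀ᵐ x : Fin d → ℝ, ∀ᶠ n in atTop,
      x ∉ {x : Fin d → ℝ | (∀ l, ⌊x l⌋ = k l) ∧ bad n fun l => ⌊t n * x l⌋} := by
    intro k
    apply ae_eventually_notMem
    have hb : ∀ n, volume {x : Fin d → ℝ | (∀ l, ⌊x l⌋ = k l) ∧ bad n fun l => ⌊t n * x l⌋} ≤
        ENNReal.ofReal (3 ^ d * ε n) := by
      intro n
      have ht0 : 0 < t n := by linarith [ht n]
      obtain ⟨N, hN⟩ : ∃ N : ℕ, N = ⌈t n⌉₊ + 1 := ⟨_, rfl⟩
      obtain ⟨c, hc⟩ : ∃ c : Fin d → ℤ, c = fun l => ⌊t n * k l⌋ := ⟨_, rfl⟩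
      obtain ⟨Z, hZ⟩ : ∃ Z : Finset (Fin d → ℤ), Z = (Fintype.piFinset fun l =>
        Finset.Ico (c l) (c l + N)).filter fun v => bad n v := ⟨_, rfl⟩
      have hsub : {x : Fin d → ℝ | (∀ l, ⌊x l⌋ = k l) ∧ bad n fun l => ⌊t n * x l⌋} ⊆
          ⋃ v ∈ Z, {x : Fin d → ℝ | ∀ l, ⌊t n * x l⌋ = v l} := by
        intro x hx
        obtain ⟨hx1, hx2⟩ := hx
        rw [mem_iUnion₂]
        refine ⟨fun l => ⌊t n * x l⌋, ?_, fun l => rfl⟩
        rw [hZ, Finset.mem_filter, Fintype.mem_piFinset]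
        refine ⟨fun l => ?_, hx2⟩
        rw [Finset.mem_Ico, hc, hN]
        have h1 := hx1 l
        rw [Int.floor_eq_iff] at h1
        constructor
        · apply Int.floor_le_floor
          exact mul_le_mul_of_nonneg_left h1.1 ht0.le
        · have h2 : t n * x l < t n * k l + t n := by
            have := mul_lt_mul_of_pos_left h1.2 ht0
            linarith
          have h3 : t n * k l < ⌊t n * (k l : ℝ)⌋ + 1 := Int.lt_floor_add_one _
          have h4 : t n ≤ ⌈t n⌉₊ := Nat.le_ceil _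
          rw [Int.floor_lt]
          push_cast
          linarith
      have hcard := h n c N (by
        rw [hN]
        push_cast
        have := Nat.le_ceil (t n)
        linarith) Z (by
        intro v hv
        rw [hZ, Finset.mem_filter, Fintype.mem_piFinset] at hv
        exact ⟨fun l => Finset.mem_Ico.1 (hv.1 l), hv.2⟩)
      calc volume {x : Fin d → ℝ | (∀ l, ⌊x l⌋ = k l) ∧ bad n fun l => ⌊t n * x l⌋} ≤
          volume (⋃ v ∈ Z, {x : Fin d → ℝ | ∀ l, ⌊t n * x l⌋ = v l}) := measure_mono hsub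
        _ ≤ ∑ v ∈ Z, volume {x : Fin d → ℝ | ∀ l, ⌊t n * x l⌋ = v l} :=
          measure_biUnion_finset_le _ _
        _ = ∑ v ∈ Z, ENNReal.ofReal (((t n)⁻¹) ^ d) :=
          Finset.sum_congr rfl fun v _ => vol_cell ht0 v
        _ = ENNReal.ofReal (Z.card * ((t n)⁻¹) ^ d) := by
          rw [Finset.sum_const, nsmul_eq_mul, ENNReal.ofReal_mul (by positivity),
            ENNReal.ofReal_natCast]
        _ ≤ ENNReal.ofReal (3 ^ d * ε n) := by
          apply ENNReal.ofReal_le_ofReal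
          have h3 : (N : ℝ) ≤ 3 * t n := by
            rw [hN]
            push_cast
            have := (Nat.ceil_lt_add_one ht0.le).le
            linarith [ht n]
          calc (Z.card : ℝ) * ((t n)⁻¹) ^ d ≤ (ε n * (N : ℝ) ^ d) * ((t n)⁻¹) ^ d :=
                mul_le_mul_of_nonneg_right hcard (by positivity)
            _ ≤ (ε n * (3 * t n) ^ d) * ((t n)⁻¹) ^ d := by
                have := hε0 n
                gcongr
            _ = 3 ^ d * ε n := by
                rw [mul_pow]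
                have : t n ^ d * ((t n)⁻¹) ^ d = 1 := by
                  rw [← mul_pow, mul_inv_cancel₀ ht0.ne', one_pow]
                linear_combination (ε n * 3 ^ d) * this
    have hs : Summable fun n => 3 ^ d * ε n := hε.mul_left _
    refine ne_top_of_le_ne_top ?_ (ENNReal.tsum_le_tsum hb)
    rw [← ENNReal.ofReal_tsum_of_nonneg (fun n => mul_nonneg (by positivity) (hε0 n)) hs]
    exact ENNReal.ofReal_ne_top
  have hall := ae_all_iff.2 key
  filter_upwards [hall] with x hx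
  filter_upwards [hx fun l => ⌊x l⌋] with n hn hbad
  exact hn ⟨fun l => rfl, hbad⟩

end Pool.Agent.Q221.PH
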