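import Pool.Agent.Y732.CountG

/-!
# Counting, with conditions up to a level
-/

set_option autoImplicit false

namespace Pool.Agent.Q221.PH

open Finset Pool.Agent.Y732

/-- the final count: the exponents are chosen -/
theorem countN {p d r N₀ D K₀ : ℕ} (hp : p.Prime) (hNK : N₀ ≤ p ^ K₀) (hr : 0 < r) (hD : 0 < D) (w : Fin d → ℕ)
    (c : Fin d → ℤ) (N : Fin d → ℕ) (Z : Finset (Fin d → ℤ))
    (hZ : ∀ v ∈ Z, ∀ l, c l ≤ v l ∧ v l < c l + N l) (hN : ∀ l, N₀ ≤ N l)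
    (H : ∀ k a e : ℕ, 1 ≤ k → k ≤ K₀ → ¬ p ^ (e + 1) ∣ D → r * a + r + 1 + e < k →
      ∀ (v : Fin (r + 1) → Fin d → ℤ) (μ : Fin (r + 1) → ℤ), (∀ i, v i ∈ Z) →
      (∀ i, (p : ℤ) ∣ μ i - 1) →
      (∀ i l, (p : ℤ) ^ k ∣ μ 0 ^ w l * v 0 l - μ i ^ w l * v i l) →
      ∃ i j, i ≠ j ∧ (p : ℤ) ^ (a + 1) ∣ μ i - μ j) :
    Z.card ^ r * N₀ ≤ (2 ^ d * r * D * p ^ 4 * ∏ l, N l) ^ r := by
  rcases Nat.eq_zero_or_pos N₀ with h0 | hN0
  · rw [h0, mul_zero]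
    exact Nat.zero_le _
  have hp2 := hp.two_le
  have hp0 := hp.pos
  obtain ⟨e, he1, he2⟩ : ∃ e, p ^ e ∣ D ∧ ¬ p ^ (e + 1) ∣ D := by
    refine ⟨D.factorization p, Nat.ordProj_dvd _ _, Nat.pow_succ_factorization_not_dvd ?_ hp⟩
    omega
  have he3 : p ^ e ≤ D := Nat.le_of_dvd (by omega) he1
  have he4 : D ≤ D ^ r := Nat.le_self_pow hr.ne' D
  obtain ⟨k, hk⟩ : ∃ k, k = Nat.log p N₀ := ⟨_, rfl⟩
  have hk1 : p ^ k ≤ N₀ := by
    rw [hk]
    exact Nat.pow_log_le_self p hN0.ne'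
  have hk2 : N₀ < p ^ (k + 1) := by
    rw [hk]
    exact Nat.lt_pow_succ_log_self hp.one_lt N₀
  have hkK : k ≤ K₀ := (Nat.pow_le_pow_iff_right hp.one_lt).1 (hk1.trans hNK)
  set M : ℕ := 2 ^ d * r * ∏ l, N l with hM
  have hfin : (M * (D * p ^ 4)) ^ r = (2 ^ d * r * D * p ^ 4 * ∏ l, N l) ^ r := by
    rw [hM]
    congr 1
    ring
  rw [← hfin]
  have h4r : p ^ (2 * r + 2) ≤ (p ^ 4) ^ r := by
    rw [← pow_mul]
    exact Nat.pow_le_pow_right hp0 (by omega)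
  -- it is enough to bound by the product of the constants
  suffices h : Z.card ^ r * N₀ ≤ M ^ r * (p ^ e * p ^ (2 * r + 2)) by
    refine h.trans ?_
    rw [mul_pow M, mul_pow D]
    exact Nat.mul_le_mul_left _ (Nat.mul_le_mul (he3.trans he4) h4r)
  by_cases hkr : r + 1 + e < k
  · obtain ⟨a, ha⟩ : ∃ a, a = (k - r - 2 - e) / r := ⟨_, rfl⟩
    have ha1 : r * a ≤ k - r - 2 - e := by
      rw [ha]
      exact Nat.mul_div_le _ _
    have ha2 : k - r - 2 - e < r * a + r := by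
      rw [ha]
      exact Nat.lt_mul_div_succ _ hr
    have ha3 : a ≤ r * a := Nat.le_mul_of_pos_left a hr
    have key := countG hp (by omega) (by omega) w c N Z hZ (fun l => hk1.trans (hN l))
      (H k a e (by omega) hkK he2 (by omega))
    have h1 : N₀ ≤ (p ^ a) ^ r * (p ^ e * p ^ (2 * r + 2)) := by
      rw [← pow_mul, ← pow_add, ← pow_add]
      refine hk2.le.trans (Nat.pow_le_pow_right hp0 ?_)
      rw [mul_comm a r]
      omega
    calc Z.card ^ r * N₀ ≤ Z.card ^ r * ((p ^ a) ^ r * (p ^ e * p ^ (2 * r + 2))) :=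
          Nat.mul_le_mul_left _ h1
      _ = (Z.card * p ^ a) ^ r * (p ^ e * p ^ (2 * r + 2)) := by rw [mul_pow, mul_assoc]
      _ ≤ M ^ r * (p ^ e * p ^ (2 * r + 2)) := Nat.mul_le_mul_right _ (Nat.pow_le_pow_left key r)
  · have h1 : N₀ ≤ p ^ e * p ^ (2 * r + 2) := by
      rw [← pow_add]
      refine hk2.le.trans (Nat.pow_le_pow_right hp0 ?_)
      omega
    have h2 : Z.card ≤ M := by
      refine (box_card c N Z hZ).trans ?_
      rw [hM]
      exact Nat.le_mul_of_pos_left _ (by positivity)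
    exact Nat.mul_le_mul (Nat.pow_le_pow_left h2 r) h1

end Pool.Agent.Q221.PH
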