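import Pool.Agent.Q221.PH.Fam
import Pool.Agent.Q221.PH.Cnt
import Pool.Agent.Y732.FamCard

/-!
# The number of members of small regulator
-/

set_option autoImplicit false

namespace Pool.Agent.Q221.PH

open Finset Pool.Agent.Y732

variable {d r : ℕ}

open scoped Classical in
theorem near_single {p : ℕ} [hp : Fact p.Prime] (F : Family d r) (hr : 0 < r)
    (hK : F.K.det ≠ 0) (hp5 : 5 ≤ p) (c : Fin d → ℤ) (N : Fin d → ℕ) {N₀ j : ℕ}
    (hN : ∀ l, N₀ ≤ N l) (hNj : N₀ ≤ p ^ (j + r + 1)) :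
    ((Fintype.piFinset fun l => Ico (c l) (c l + N l)).filter fun v => Near F p j v).card ^ r *
      N₀ ≤ (2 ^ d * r * F.K.det.natAbs * p ^ 4 * ∏ l, N l) ^ r := by
  apply countN hp.out hNj hr (Int.natAbs_pos.2 hK) F.w c N _ _ hN
  · intro k a e hk hkK he hak v μ hv hμ hc
    refine fam_orbit_near hp5 hk hkK ?_ hak v μ (fun i => (mem_filter.1 (hv i)).2) hμ hc
    intro h
    apply he
    have h1 := Int.natAbs_dvd_natAbs.2 h
    rw [Int.natAbs_pow, Int.natAbs_natCast] at h1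
    exact h1
  · intro v hv l
    have h1 := Fintype.mem_piFinset.1 (mem_filter.1 hv).1 l
    rw [mem_Ico] at h1
    exact h1

/-- the bound with roots -/
theorem near_root {p : ℕ} [hp : Fact p.Prime] (F : Family d r) (hr : 0 < r)
    (hK : F.K.det ≠ 0) (hp5 : 5 ≤ p) (c : Fin d → ℤ) (N : Fin d → ℕ) {N₀ j : ℕ}
    (hN : ∀ l, N₀ ≤ N l) (Z : Finset (Fin d → ℤ))
    (hZ : ∀ v ∈ Z, (∀ l, c l ≤ v l ∧ v l < c l + N l) ∧ Near F p j v) :
    (Z.card : ℝ) * ((min N₀ (p ^ (j + r + 1)) : ℕ) : ℝ) ^ ((1 : ℝ) / r) ≤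
      2 ^ d * r * |(F.K.det : ℝ)| * (p : ℝ) ^ 4 * ∏ l, (N l : ℝ) := by
  classical
  have h1 := root_bound hr (near_single F hr hK hp5 c N (N₀ := min N₀ (p ^ (j + r + 1))) (j := j)
    (fun l => (min_le_left _ _).trans (hN l)) (min_le_right _ _))
  have h2 : Z ⊆ (Fintype.piFinset fun l => Ico (c l) (c l + N l)).filter fun v => Near F p j v := by
    intro v hv
    rw [mem_filter, Fintype.mem_piFinset]
    exact ⟨fun l => mem_Ico.2 ((hZ v hv).1 l), (hZ v hv).2⟩
  have h3 : (Z.card : ℝ) ≤ (((Fintype.piFinset fun l => Ico (c l) (c l + N l)).filter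
      fun v => Near F p j v).card : ℝ) := by exact_mod_cast card_le_card h2
  refine (mul_le_mul_of_nonneg_right h3 (by positivity)).trans (h1.trans (le_of_eq ?_))
  push_cast
  rw [Nat.cast_natAbs]
  push_cast
  ring

section

variable {G : Type} {K : Type*} [AddCommGroup G] [Field K] [CharZero K] {h : G → K}

/-- torsion does not change the pairing -/
lemma quad_torsion (hq : ∀ P Q, h (P + Q) + h (P - Q) = 2 * h P + 2 * h Q) {T : G}
    (hT : IsOfFinAddOrder T) (P : G) : h (P + T) = h P ∧ h T = 0 := by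
  obtain ⟨n, hn, hnT⟩ := isOfFinAddOrder_iff_nsmul_eq_zero.1 hT
  have hn0 : ((n : ℤ) : K) ≠ 0 := by
    have : (n : K) ≠ 0 := by exact_mod_cast hn.ne'
    exact_mod_cast this
  have h0 : h 0 = 0 := by
    have := hq 0 0
    rw [add_zero, sub_zero] at this
    linear_combination (-1 / 2 : K) * this
  have h1 : ∀ Q, h (Q + T) - h Q - h T = 0 := by
    intro Q
    have e1 : prHom hq Q (n • T) = (n : K) * prHom hq Q T := by
      rw [map_nsmul, nsmul_eq_mul]
    rw [hnT, map_zero] at e1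
    have e2 : prHom hq Q T = h (T + Q) - h T - h Q := rfl
    have e3 : prHom hq Q T = 0 := by
      have hn1 : (n : K) ≠ 0 := by exact_mod_cast hn.ne'
      exact (mul_eq_zero.1 e1.symm).resolve_left hn1
    rw [e2, add_comm T Q] at e3
    linear_combination e3
  have h2 : h T = 0 := by
    have e1 := h1 T
    have e2 := hq T T
    rw [sub_self, h0] at e2
    linear_combination (1 / 2 : K) * e1 - (1 / 2 : K) * e2
  refine ⟨?_, h2⟩
  have := h1 P
  rw [h2] at this
  linear_combination this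

end

section

variable {p : ℕ} [hp : Fact p.Prime] {G : Type} [AddCommGroup G] {h : G → ℚ_[p]}

/-- the regulator of a basis modulo torsion is at least as large as the one of any family -/
theorem norm_Reg_le (hq : ∀ P Q, h (P + Q) + h (P - Q) = 2 * h P + 2 * h Q) {r : ℕ}
    (hr : 0 < r) {b : Fin r → G} (hb : Reg h b ≠ 0) (hrank : Module.finrank ℤ G = r)
    {s : ℕ} {c : Fin s → G} (hc : LinearIndependent ℤ c)
    (hmax : ∀ Q, ∃ T, IsOfFinAddOrder T ∧ Q - T ∈ Submodule.span ℤ (Set.range c)) :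
    ‖Reg h b‖ ≤ ‖Reg h c‖ := by
  have hfin : Module.rank ℤ G = r := by
    have h1 : Module.rank ℤ G < Cardinal.aleph0 := by
      by_contra h2
      have h3 : Module.finrank ℤ G = 0 := by
        unfold Module.finrank
        exact Cardinal.toNat_apply_of_aleph0_le (not_lt.1 h2)
      omega
    rw [← hrank, Module.finrank, Cardinal.cast_toNat_of_lt_aleph0 h1]
  have hs : s ≤ r := by
    have h2 := hc.cardinal_le_rank
    rw [hfin, Cardinal.mk_fin] at h2
    exact_mod_cast h2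
  choose T hT hmem using fun i => hmax (b i)
  have hmem' : ∀ i, ∃ a : Fin s → ℤ, ∑ j, a j • c j = b i - T i := fun i =>
    (Submodule.mem_span_range_iff_exists_fun ℤ).1 (hmem i)
  choose a ha using hmem'
  have hneg : ∀ i, IsOfFinAddOrder (-T i) := fun i => (hT i).neg
  have e1 : Reg h b = Reg h (fun i => ∑ j, a i j • c j) := by
    unfold Reg
    congr 1
    ext i k
    rw [Matrix.of_apply, Matrix.of_apply]
    beta_reduce
    rw [ha i, ha k]
    have f1 := (quad_torsion hq (hneg i) (b i)).1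
    have f2 := (quad_torsion hq (hneg k) (b k)).1
    have f3 : IsOfFinAddOrder (-T i + -T k) := (hneg i).add (hneg k)
    have f4 := (quad_torsion hq f3 (b i + b k)).1
    have g1 : b i - T i + (b k - T k) = b i + b k + (-T i + -T k) := by abel
    rw [g1, f4, sub_eq_add_neg (b i) (T i), f1, sub_eq_add_neg (b k) (T k), f2]
  have h3 := Reg_comb hq c (Matrix.of a)
  have e2 : (fun i => ∑ j, (Matrix.of a) i j • c j) = fun i => ∑ j, a i j • c j := rfl
  rw [e2, ← e1] at h3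
  have h4 : r ≤ s := by
    have h5 : IsUnit ((Matrix.map (Matrix.of a) (fun z : ℤ => (z : ℚ_[p])) *
        (Matrix.of fun i j => h (c i + c j) - h (c i) - h (c j)) *
        (Matrix.map (Matrix.of a) (fun z : ℤ => (z : ℚ_[p]))).transpose)) := by
      rw [Matrix.isUnit_iff_isUnit_det, isUnit_iff_ne_zero, ← h3]
      exact hb
    have h6 := Matrix.rank_of_isUnit _ h5
    rw [Fintype.card_fin] at h6
    have h7 := Matrix.rank_mul_le_right ((Matrix.map (Matrix.of a) (fun z : ℤ => (z : ℚ_[p])) *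
        (Matrix.of fun i j => h (c i + c j) - h (c i) - h (c j))))
        (Matrix.map (Matrix.of a) (fun z : ℤ => (z : ℚ_[p]))).transpose
    have h8 := Matrix.rank_le_card_height (Matrix.map (Matrix.of a) (fun z : ℤ => (z : ℚ_[p]))).transpose
    rw [Fintype.card_fin] at h8
    omega
  obtain rfl : r = s := le_antisymm h4 hs
  rw [h3, Matrix.det_mul, Matrix.det_mul, Matrix.det_transpose, norm_mul, norm_mul]
  have h5 : (Matrix.map (Matrix.of a) (fun z : ℤ => (z : ℚ_[p]))).det =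
      (((Matrix.of a).det : ℤ) : ℚ_[p]) := by
    have h6 := RingHom.map_det (Int.castRingHom ℚ_[p]) (Matrix.of a)
    exact h6.symm
  have h6 : ‖(Matrix.map (Matrix.of a) (fun z : ℤ => (z : ℚ_[p]))).det‖ ≤ 1 := by
    rw [h5]
    exact Padic.norm_int_le_one _
  have h7 : Reg h c = (Matrix.of fun i j => h (c i + c j) - h (c i) - h (c j)).det := rfl
  rw [← h7]
  have n1 := norm_nonneg (Reg h c)
  have n2 := norm_nonneg (Matrix.map (Matrix.of a) (fun z : ℤ => (z : ℚ_[p]))).det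
  calc _ ≤ 1 * ‖Reg h c‖ * 1 :=
        mul_le_mul (mul_le_mul_of_nonneg_right h6 n1) h6 n2 (by positivity)
    _ = _ := by ring

end

/-- For every canonical `p`-adic height of the member at `v`, the regulator of the `r` points
`P 0 1, …, P 0 r` has norm larger than `p ^ (-j)`, and if the rank of the group of rational points
is `r`, then so has the `p`-adic regulator: the regulator of the bases modulo torsion. -/
def Big (F : Family d r) (v : Fin d → ℤ) (j p : ℕ) [Fact p.Prime] : Prop :=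
  ∀ h : (WQ (F.curve v)).Point → ℚ_[p], IsHeightW p (F.curve v) h →
    ((p : ℝ)⁻¹) ^ j < ‖Reg h (fun i : Fin r => F.P v 0 i.succ)‖ ∧
    (Module.finrank ℤ (WQ (F.curve v)).Point = r →
      ∀ (s : ℕ) (c : Fin s → (WQ (F.curve v)).Point), LinearIndependent ℤ c →
        (∀ Q, ∃ T, IsOfFinAddOrder T ∧ Q - T ∈ Submodule.span ℤ (Set.range c)) →
        ((p : ℝ)⁻¹) ^ j < ‖Reg h c‖)

lemma near_of_not {p : ℕ} [hp : Fact p.Prime] {F : Family d r} {v : Fin d → ℤ} {j : ℕ}
    (hr : 0 < r) (hM : F.Marked v) (ho : IsOrdinaryW p (F.curve v)) (hn : ¬ Big F v j p) :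
    Near F p j v := by
  by_contra hnear
  apply hn
  intro h hh
  have h1 : ((p : ℝ)⁻¹) ^ j < ‖Reg h (fun i : Fin r => F.P v 0 i.succ)‖ := by
    by_contra h2
    exact hnear ⟨hM, ho, h, hh, not_lt.1 h2⟩
  refine ⟨h1, fun hrank s c hc hmax => h1.trans_le (norm_Reg_le hh.1 hr ?_ hrank hc hmax)⟩
  intro h0
  rw [h0, norm_zero] at h1
  have hp0 : (0 : ℝ) < p := by exact_mod_cast hp.out.pos
  have : 0 < ((p : ℝ)⁻¹) ^ j := by positivity
  linarith

/-- The upper bound: finitely many primes at once, for every prime `p` with its own level. -/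
theorem big_card (F : Family d r) (hr : 0 < r) (hK : F.K.det ≠ 0) (S : Finset ℕ) (j : ℕ → ℕ)
    (hS : ∀ p ∈ S, p.Prime ∧ 5 ≤ p) (c : Fin d → ℤ) (N : Fin d → ℕ) (N₀ : ℕ) (hN₀ : 0 < N₀)
    (hN : ∀ l, N₀ ≤ N l) (Z : Finset (Fin d → ℤ))
    (hZ : ∀ v ∈ Z, (∀ l, c l ≤ v l ∧ v l < c l + N l) ∧ F.Marked v ∧
      ∃ p ∈ S, ∃ _ : Fact p.Prime, IsOrdinaryW p (F.curve v) ∧ ¬ Big F v (j p) p) :
    (Z.card : ℝ) ≤ 2 ^ d * r * |(F.K.det : ℝ)| * (∑ p ∈ S, (p : ℝ) ^ 4 /
      ((min N₀ (p ^ (j p + r + 1)) : ℕ) : ℝ) ^ ((1 : ℝ) / r)) * ∏ l, (N l : ℝ) := by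
  classical
  set V : ℕ → Finset (Fin d → ℤ) := fun p =>
    if hp : p.Prime then Z.filter fun v => @Near d r F p ⟨hp⟩ (j p) v else ∅ with hV
  have h1 : Z ⊆ S.biUnion V := by
    intro v hv
    obtain ⟨hb, hm, p, hpS, hp, ho, hn⟩ := hZ v hv
    rw [mem_biUnion]
    refine ⟨p, hpS, ?_⟩
    rw [hV]
    simp only
    rw [dif_pos hp.out, mem_filter]
    exact ⟨hv, near_of_not hr hm ho hn⟩
  have h2 : ∀ p ∈ S, ((V p).card : ℝ) ≤ 2 ^ d * r * |(F.K.det : ℝ)| * ((p : ℝ) ^ 4 /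
      ((min N₀ (p ^ (j p + r + 1)) : ℕ) : ℝ) ^ ((1 : ℝ) / r)) * ∏ l, (N l : ℝ) := by
    intro p hp
    obtain ⟨hpp, hp5⟩ := hS p hp
    have : Fact p.Prime := ⟨hpp⟩
    have h4 : V p = Z.filter fun v => Near F p (j p) v := by
      rw [hV]
      simp only
      rw [dif_pos hpp]
    have h3 := near_root F hr hK hp5 c N hN (V p) (j := j p) (by
      intro v hv
      rw [h4, mem_filter] at hv
      exact ⟨(hZ v hv.1).1, hv.2⟩)
    have h5 : 0 < min N₀ (p ^ (j p + r + 1)) := lt_min hN₀ (pow_pos hpp.pos _)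
    have h6 : (0 : ℝ) < ((min N₀ (p ^ (j p + r + 1)) : ℕ) : ℝ) ^ ((1 : ℝ) / r) :=
      Real.rpow_pos_of_pos (by exact_mod_cast h5) _
    rw [← le_div_iff₀ h6] at h3
    refine h3.trans (le_of_eq ?_)
    ring
  calc (Z.card : ℝ) ≤ ((S.biUnion V).card : ℝ) := by exact_mod_cast card_le_card h1
    _ ≤ ((∑ p ∈ S, (V p).card : ℕ) : ℝ) := by exact_mod_cast card_biUnion_le
    _ = ∑ p ∈ S, ((V p).card : ℝ) := by push_cast; rfl
    _ ≤ ∑ p ∈ S, 2 ^ d * r * |(F.K.det : ℝ)| * ((p : ℝ) ^ 4 /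
      ((min N₀ (p ^ (j p + r + 1)) : ℕ) : ℝ) ^ ((1 : ℝ) / r)) * ∏ l, (N l : ℝ) := sum_le_sum h2
    _ = _ := by rw [← sum_mul, ← mul_sum]

end Pool.Agent.Q221.PH
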