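import Pool.Agent.Q221.PH.Orb

/-!
# Members of small regulator along the scaling
-/

set_option autoImplicit false

namespace Pool.Agent.Q221.PH

open MvPolynomial Pool.Agent.Y732

variable {d r : ℕ} {F : Family d r} {v v' : Fin d → ℤ} {p : ℕ} [hp : Fact p.Prime]

/-- the marked members, ordinary at `p`, with a regulator of norm at most `p ^ (-j)` -/
def Near (F : Family d r) (p : ℕ) [Fact p.Prime] (j : ℕ) (v : Fin d → ℤ) : Prop :=
  F.Marked v ∧ IsOrdinaryW p (F.curve v) ∧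
    ∃ h : (WQ (F.curve v)).Point → ℚ_[p], IsHeightW p (F.curve v) h ∧
      ‖Reg h (fun i : Fin r => F.P v 0 i.succ)‖ ≤ ((p : ℝ)⁻¹) ^ j

theorem fam_orbit_near (hp5 : 5 ≤ p) {k a e j₀ : ℕ} (hk : 1 ≤ k) (hkj : k ≤ j₀ + r + 1)
    (he : ¬ (p : ℤ) ^ (e + 1) ∣ F.K.det)
    (hak : r * a + r + 1 + e < k) (v : Fin (r + 1) → Fin d → ℤ) (μ : Fin (r + 1) → ℤ)
    (hv : ∀ i, Near F p j₀ (v i)) (hμ : ∀ i, (p : ℤ) ∣ μ i - 1)
    (hc : ∀ i l, (p : ℤ) ^ k ∣ μ 0 ^ F.w l * v 0 l - μ i ^ F.w l * v i l) :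
    ∃ i j, i ≠ j ∧ (p : ℤ) ^ (a + 1) ∣ μ i - μ j := by
  by_contra hcon
  push Not at hcon
  have hp1 : (1 : ℝ) < p := by exact_mod_cast hp.out.one_lt
  have hM := fun i => (hv i).1
  have ho := fun i => (hv i).2.1
  choose h hh hreg using fun i => (hv i).2.2
  have D := fun i => (hh i).hd.some
  -- the multipliers
  have hpp : ∀ {z : ℤ}, (p : ℤ) ∣ z → (p : ℤ_[p]) ∣ (z : ℤ_[p]) := by
    intro z hz
    have := int_dvd_padic (p := p) (k := 1) (z := z) (by rwa [pow_one])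
    rwa [pow_one] at this
  have hμp : ∀ i, (p : ℤ_[p]) ∣ (μ i : ℤ_[p]) - 1 := by
    intro i
    have := hpp (hμ i)
    push_cast at this
    exact this
  have hU : ∀ i, IsUnit (μ i : ℤ_[p]) := fun i => isUnit_of_one (hμp i)
  have hn1 : ∀ i, ‖((μ i : ℤ) : ℚ_[p])‖ = 1 := by
    intro i
    have h1 : ‖(μ i : ℤ_[p])‖ = 1 := PadicInt.isUnit_iff.1 (hU i)
    exact h1
  choose ρ hρ using fun i => (hU i).exists_right_inv
  have hμ1 : ∀ i, (p : ℤ_[p]) ∣ (μ 0 : ℤ_[p]) * ρ i - 1 := by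
    intro i
    have e1 : (μ 0 : ℤ_[p]) * ρ i - 1 = ((μ 0 : ℤ_[p]) - 1) * ρ i - ((μ i : ℤ_[p]) - 1) * ρ i := by
      linear_combination hρ i
    rw [e1]
    exact dvd_sub ((hμp 0).mul_right _) ((hμp i).mul_right _)
  have hvc : ∀ i l, (v i l : ZMod (p ^ k)) =
      PadicInt.toZModPow k ((μ 0 : ℤ_[p]) * ρ i) ^ F.w l * v 0 l := by
    intro i l
    have h1 := hc i l
    have h2 : ((μ 0 ^ F.w l * v 0 l - μ i ^ F.w l * v i l : ℤ) : ZMod (p ^ k)) = 0 := by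
      rw [ZMod.intCast_zmod_eq_zero_iff_dvd]
      exact_mod_cast h1
    have h3 := congrArg (PadicInt.toZModPow (p := p) k) (hρ i)
    rw [map_mul, map_intCast, map_one] at h3
    rw [map_mul, map_intCast, mul_pow]
    push_cast at h2
    have h4 : ((μ i : ℤ) : ZMod (p ^ k)) ^ F.w l * PadicInt.toZModPow k (ρ i) ^ F.w l = 1 := by
      rw [← mul_pow, h3, one_pow]
    linear_combination (-(v i l : ZMod (p ^ k))) * h4 -
      (PadicInt.toZModPow k (ρ i) ^ F.w l) * h2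
  have hlog : ∀ i, plog p (((μ 0 : ℤ_[p]) * ρ i : ℤ_[p]) : ℚ_[p]) =
      plog p ((μ 0 : ℤ) : ℚ_[p]) - plog p ((μ i : ℤ) : ℚ_[p]) := by
    intro i
    have h1 : ((((μ 0 : ℤ_[p]) * ρ i : ℤ_[p]) : ℚ_[p])) * ((μ i : ℤ) : ℚ_[p]) =
        ((μ 0 : ℤ) : ℚ_[p]) := by
      have h2 := congrArg (Subtype.val : ℤ_[p] → ℚ_[p]) (hρ i)
      push_cast at h2 ⊢
      have h3 : ((μ i : ℤ) : ℚ_[p]) * (ρ i : ℚ_[p]) = 1 := h2
      linear_combination ((μ 0 : ℤ) : ℚ_[p]) * h3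
    have h2 : ‖((((μ 0 : ℤ_[p]) * ρ i : ℤ_[p]) : ℚ_[p]))‖ = 1 := by
      have h3 := congrArg norm h1
      rwa [norm_mul, hn1, hn1, mul_one] at h3
    have h3 := plog_mul h2 (hn1 i)
    rw [h1] at h3
    linear_combination -h3
  have hent := fun i j j' => fam_entry hp5 hk (hM 0) (hM i) (ho 0) (hμ1 i) (hvc i) (D 0) (D i) j j'
  refine orbit_near (p := p) hk hkj he (l := fun i => plog p ((μ i : ℤ) : ℚ_[p]))
    (M := fun i => MM F (v i) (h i)) (fun i => hreg i) (fun i j j' => (hent i j j').2) ?_ hak ?_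
  · intro i j j'
    have h1 := (hent i j j').1
    rw [hlog i] at h1
    have e1 : MM F (v i) (h i) j j' - MM F (v 0) (h 0) j j' -
        (plog p ((μ i : ℤ) : ℚ_[p]) - plog p ((μ 0 : ℤ) : ℚ_[p])) * ((F.K j j' : ℤ) : ℚ_[p]) =
        -(MM F (v 0) (h 0) j j' - MM F (v i) (h i) j j' -
        (plog p ((μ 0 : ℤ) : ℚ_[p]) - plog p ((μ i : ℤ) : ℚ_[p])) * ((F.K j j' : ℤ) : ℚ_[p])) := by
      ring
    rw [e1, norm_neg]
    exact h1
  · intro i j hij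
    have h1 := int_norm_ge (hcon i j hij)
    have h2 : ‖((μ i : ℤ) : ℚ_[p]) - ((μ j : ℤ) : ℚ_[p])‖ ≤ (p : ℝ)⁻¹ := by
      have h3 : (p : ℤ_[p]) ∣ ((μ i : ℤ_[p]) - (μ j : ℤ_[p])) := by
        have := dvd_sub (hμp i) (hμp j)
        rwa [sub_sub_sub_cancel_right] at this
      obtain ⟨z, hz⟩ := h3
      have h4 : ‖((μ i : ℤ_[p]) - (μ j : ℤ_[p]))‖ ≤ (p : ℝ)⁻¹ := by
        rw [hz, norm_mul, PadicInt.norm_p]
        have h5 := PadicInt.norm_le_one z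
        have h6 : (0 : ℝ) ≤ (p : ℝ)⁻¹ := by positivity
        nlinarith
      exact h4
    rw [norm_plog_sub (by omega) (hn1 i) (hn1 j) h2]
    push_cast at h1
    exact h1

end Pool.Agent.Q221.PH
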