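import Pool.Agent.Y732.FamMain

/-!
# Nearly singular matrices along the scaling
-/

set_option autoImplicit false

namespace Pool.Agent.Q221.PH

open Polynomial Matrix Pool.Agent.Y732

variable {p : ℕ} [hp : Fact p.Prime]

/-- `r + 1` nearly singular matrices on one orbit: two of the multipliers are close -/
theorem orbit_near {r k a c j₀ : ℕ} (hk : 1 ≤ k) (hkj : k ≤ j₀ + r + 1) {K : Matrix (Fin r) (Fin r) ℤ}
    (hc : ¬ (p : ℤ) ^ (c + 1) ∣ K.det)
    {l : Fin (r + 1) → ℚ_[p]} {M : Fin (r + 1) → Matrix (Fin r) (Fin r) ℚ_[p]}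
    (hM : ∀ i, ‖(M i).det‖ ≤ ((p : ℝ)⁻¹) ^ j₀) (hb : ∀ i j j', ‖M i j j'‖ ≤ p)
    (hd : ∀ i j j', ‖M i j j' - M 0 j j' - (l i - l 0) * (K j j' : ℚ_[p])‖ ≤
      (p : ℝ) ^ 2 * ((p : ℝ)⁻¹) ^ k)
    (hak : r * a + r + 1 + c < k) (hl : ∀ i j, i ≠ j → ((p : ℝ)⁻¹) ^ a ≤ ‖l i - l j‖) :
    False := by
  have hp0 : (0 : ℝ) < p := by exact_mod_cast hp.out.pos
  have hp1 : (1 : ℝ) < p := by exact_mod_cast hp.out.one_lt
  have hinv1 : (p : ℝ)⁻¹ < 1 := inv_lt_one_of_one_lt₀ hp1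
  obtain ⟨ε, hε⟩ : ∃ ε : ℝ, ε = (p : ℝ) ^ 2 * ((p : ℝ)⁻¹) ^ k := ⟨_, rfl⟩
  have hε0 : 0 ≤ ε := by rw [hε]; positivity
  have hεp : ε ≤ p := by
    have h1 : ((p : ℝ)⁻¹) ^ k ≤ ((p : ℝ)⁻¹) ^ 1 :=
      pow_le_pow_of_le_one (by positivity) hinv1.le hk
    calc ε ≤ (p : ℝ) ^ 2 * ((p : ℝ)⁻¹) ^ 1 := by
          rw [hε]
          exact mul_le_mul_of_nonneg_left h1 (by positivity)
      _ = p := by field_simp
  rw [← hε] at hd
  -- the determinants of the shifted matrices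
  set KK : Matrix (Fin r) (Fin r) ℚ_[p] := K.map (Int.castRingHom ℚ_[p]) with hKK
  have hKKe : ∀ j j', KK j j' = (K j j' : ℚ_[p]) := fun j j' => rfl
  have hKKd : KK.det = (K.det : ℚ_[p]) := by
    have h1 := RingHom.map_det (Int.castRingHom ℚ_[p]) K
    exact h1.symm
  set F : ℚ_[p][X] := det ((X : ℚ_[p][X]) • KK.map C + (M 0).map C) with hF
  have hev : ∀ s : ℚ_[p], F.eval s = (s • KK + M 0).det := by
    intro s
    rw [hF, ← coe_evalRingHom, RingHom.map_det]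
    congr 1
    ext i j
    simp
    ring
  have hsmall : ∀ i, ‖F.eval (l i - l 0)‖ ≤ (p : ℝ) ^ r * ε / p := by
    intro i
    rw [hev]
    have h2 : ∀ j j', ‖M i j j' - ((l i - l 0) • KK + M 0) j j'‖ ≤ ε := by
      intro j j'
      have e : M i j j' - ((l i - l 0) • KK + M 0) j j' =
          M i j j' - M 0 j j' - (l i - l 0) * (K j j' : ℚ_[p]) := by
        rw [Matrix.add_apply, Matrix.smul_apply, smul_eq_mul, hKKe]
        ring
      rw [e]
      exact hd i j j'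
    have h3 : ∀ j j', ‖((l i - l 0) • KK + M 0) j j'‖ ≤ p := by
      intro j j'
      have e : ((l i - l 0) • KK + M 0) j j' =
          M i j j' - (M i j j' - ((l i - l 0) • KK + M 0) j j') := by ring
      rw [e, sub_eq_add_neg]
      refine (IsUltrametricDist.norm_add_le_max _ _).trans (max_le (hb i j j') ?_)
      rw [norm_neg]
      exact (h2 j j').trans hεp
    have h4 := det_diff hp0 hε0 (hb i) h3 h2
    have h5 : ‖(M i).det‖ ≤ (p : ℝ) ^ r * ε / p := by
      refine (hM i).trans ?_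
      have h6 : ((p : ℝ)⁻¹) ^ (j₀ + r + 1) ≤ ((p : ℝ)⁻¹) ^ k :=
        pow_le_pow_of_le_one (by positivity) hinv1.le hkj
      have h7 : (p : ℝ) ^ (r + 1) * ((p : ℝ)⁻¹) ^ (j₀ + r + 1) = ((p : ℝ)⁻¹) ^ j₀ := by
        have e1 : (p : ℝ) ^ (r + 1) * ((p : ℝ)⁻¹) ^ (r + 1) = 1 := by
          rw [← mul_pow, mul_inv_cancel₀ hp0.ne', one_pow]
        calc _ = ((p : ℝ) ^ (r + 1) * ((p : ℝ)⁻¹) ^ (r + 1)) * ((p : ℝ)⁻¹) ^ j₀ := by
              rw [add_assoc, pow_add _ j₀]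
              ring
          _ = _ := by rw [e1, one_mul]
      have h8 : (p : ℝ) ^ r * ε / p = (p : ℝ) ^ (r + 1) * ((p : ℝ)⁻¹) ^ k := by
        rw [hε]
        field_simp
        try ring
      rw [h8, ← h7]
      exact mul_le_mul_of_nonneg_left h6 (by positivity)
    have h6 : ((l i - l 0) • KK + M 0).det =
        (M i).det - ((M i).det - ((l i - l 0) • KK + M 0).det) := by ring
    rw [h6, sub_eq_add_neg]
    refine (IsUltrametricDist.norm_add_le_max _ _).trans (max_le h5 ?_)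
    rw [norm_neg]
    exact h4
  have hinj : Set.InjOn (fun i => l i - l 0) ((Finset.univ : Finset (Fin (r + 1))) : Set _) := by
    intro i _ j _ hij
    by_contra hne
    have h5 := hl i j hne
    have h6 : l i - l j = 0 := by linear_combination hij
    rw [h6, norm_zero] at h5
    have h7 : 0 < ((p : ℝ)⁻¹) ^ a := by positivity
    linarith
  have hdeg : F.degree < (Finset.univ : Finset (Fin (r + 1))).card := by
    rw [Finset.card_univ, Fintype.card_fin]
    have h5 := natDegree_det_X_add_C_le KK (M 0)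
    rw [← hF, Fintype.card_fin] at h5
    refine lt_of_le_of_lt degree_le_natDegree ?_
    exact_mod_cast Nat.lt_succ_of_le h5
  have key := Lagrange.coeff_eq_sum hinj hdeg
  have hcoef : F.coeff ((Finset.univ : Finset (Fin (r + 1))).card - 1) = (K.det : ℚ_[p]) := by
    rw [Finset.card_univ, Fintype.card_fin, Nat.add_sub_cancel, ← hKKd]
    have h5 := coeff_det_X_add_C_card KK (M 0)
    rwa [Fintype.card_fin] at h5
  rw [hcoef] at key
  have hbound : ‖(K.det : ℚ_[p])‖ ≤ (p : ℝ) ^ r * ε / p * ((p : ℝ) ^ a) ^ r := by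
    rw [key]
    apply sum_le (by positivity)
    intro i _
    rw [norm_div, norm_prod]
    have h5 : ((p : ℝ)⁻¹ ^ a) ^ r ≤ ∏ j ∈ Finset.univ.erase i, ‖l i - l 0 - (l j - l 0)‖ := by
      calc ((p : ℝ)⁻¹ ^ a) ^ r = ∏ _j ∈ (Finset.univ : Finset (Fin (r + 1))).erase i,
            (p : ℝ)⁻¹ ^ a := by
            rw [Finset.prod_const, Finset.card_erase_of_mem (Finset.mem_univ i), Finset.card_univ,
              Fintype.card_fin, Nat.add_sub_cancel]
        _ ≤ _ := by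
            apply Finset.prod_le_prod
            · intro j _
              positivity
            · intro j hj
              have e : l i - l 0 - (l j - l 0) = l i - l j := by ring
              rw [e]
              exact hl i j (Finset.ne_of_mem_erase hj).symm
    calc ‖F.eval (l i - l 0)‖ / ∏ j ∈ Finset.univ.erase i, ‖l i - l 0 - (l j - l 0)‖ ≤
          ((p : ℝ) ^ r * ε / p) / ((p : ℝ)⁻¹ ^ a) ^ r :=
          div_le_div₀ (by positivity) (hsmall i) (by positivity) h5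
      _ = _ := by
          rw [div_eq_mul_inv _ (((p : ℝ)⁻¹ ^ a) ^ r)]
          congr 1
          rw [← inv_pow, ← inv_pow, inv_inv]
  have hlow := int_norm_ge hc
  have hfin : ((p : ℝ)⁻¹) ^ c ≤ (p : ℝ) ^ (r * a + r + 1) * ((p : ℝ)⁻¹) ^ k := by
    refine (hlow.trans hbound).trans (le_of_eq ?_)
    rw [hε, ← pow_mul, mul_comm a r]
    field_simp
    ring
  have h8 : (p : ℝ) ^ k ≤ (p : ℝ) ^ (r * a + r + 1 + c) := by
    have h9 := mul_le_mul_of_nonneg_left hfin (by positivity : (0 : ℝ) ≤ (p : ℝ) ^ k * (p : ℝ) ^ c)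
    have e1 : (p : ℝ) ^ k * (p : ℝ) ^ c * ((p : ℝ)⁻¹) ^ c = (p : ℝ) ^ k := by
      rw [mul_assoc, ← mul_pow, mul_inv_cancel₀ hp0.ne', one_pow, mul_one]
    have e2 : (p : ℝ) ^ k * (p : ℝ) ^ c * ((p : ℝ) ^ (r * a + r + 1) * ((p : ℝ)⁻¹) ^ k) =
        (p : ℝ) ^ (r * a + r + 1 + c) := by
      have e3 : (p : ℝ) ^ k * ((p : ℝ)⁻¹) ^ k = 1 := by
        rw [← mul_pow, mul_inv_cancel₀ hp0.ne', one_pow]
      calc _ = ((p : ℝ) ^ k * ((p : ℝ)⁻¹) ^ k) * ((p : ℝ) ^ (r * a + r + 1) * (p : ℝ) ^ c) := by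
            ring
        _ = _ := by rw [e3, one_mul, ← pow_add]
    rw [e1, e2] at h9
    exact h9
  have h10 := pow_lt_pow_right₀ hp1 hak
  linarith

end Pool.Agent.Q221.PH
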