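import Pool.Agent.Q221.PH.Card

/-!
# The quadratic twists of an elliptic curve as a family with a section
-/

set_option autoImplicit false

namespace Pool.Agent.Q221.PH

open Pool.Agent.Y732 MvPolynomial

/-- the cubic form `m³ + a m n² + b n³` -/
def gf {R : Type*} [CommRing R] (a b m n : R) : R := m ^ 3 + a * m * n ^ 2 + b * n ^ 3

/-- the parameter of the twist -/
def df {R : Type*} [CommRing R] (a b m n : R) : R := n * gf a b m n

/-- the numerator of the abscissa of the double point -/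
def xf {R : Type*} [CommRing R] (a b m n : R) : R := (3 * m ^ 2 + a * n ^ 2) ^ 2 - 8 * m * gf a b m n

/-- the numerator of the ordinate of the double point -/
def yf {R : Type*} [CommRing R] (a b m n : R) : R :=
  (3 * m ^ 2 + a * n ^ 2) * (4 * m * gf a b m n - xf a b m n) - 8 * gf a b m n ^ 2

lemma curve_id {R : Type*} [CommRing R] (a b m n : R) :
    yf a b m n ^ 2 = xf a b m n ^ 3 + a * df a b m n ^ 2 * xf a b m n * 2 ^ 4 +
      b * df a b m n ^ 3 * 2 ^ 6 := by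
  unfold yf xf df gf
  ring

/-- the degrees -/
lemma hom_X (i : Fin 2) : IsWeightedHomogeneous (fun _ : Fin 2 => 1) (X i : MvPolynomial (Fin 2) ℤ) 1 :=
  isWeightedHomogeneous_X ℤ _ i

lemma hom_pow {φ : MvPolynomial (Fin 2) ℤ} {k : ℕ}
    (h : IsWeightedHomogeneous (fun _ : Fin 2 => 1) φ k) (j : ℕ) :
    IsWeightedHomogeneous (fun _ : Fin 2 => 1) (φ ^ j) (j * k) := by
  have := h.pow j
  rwa [smul_eq_mul] at this

lemma hom_cast {φ : MvPolynomial (Fin 2) ℤ} {k l : ℕ}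
    (h : IsWeightedHomogeneous (fun _ : Fin 2 => 1) φ k) (hk : k = l) :
    IsWeightedHomogeneous (fun _ : Fin 2 => 1) φ l := hk ▸ h

lemma hom_C (c : ℤ) : IsWeightedHomogeneous (fun _ : Fin 2 => 1) (C c : MvPolynomial (Fin 2) ℤ) 0 :=
  isWeightedHomogeneous_C _ c

lemma hom_num (c : ℕ) [c.AtLeastTwo] : IsWeightedHomogeneous (fun _ : Fin 2 => 1)
    (OfNat.ofNat c : MvPolynomial (Fin 2) ℤ) 0 := by
  have h := hom_C (OfNat.ofNat c : ℤ)
  rwa [map_ofNat] at h

lemma hom_g (a b : ℤ) : IsWeightedHomogeneous (fun _ : Fin 2 => 1)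
    (gf (C a) (C b) (X 0) (X 1) : MvPolynomial (Fin 2) ℤ) 3 := by
  unfold gf
  refine ((hom_cast (hom_pow (hom_X 0) 3) rfl).add ?_).add ?_
  · exact hom_cast (((hom_C a).mul (hom_X 0)).mul (hom_pow (hom_X 1) 2)) rfl
  · exact hom_cast ((hom_C b).mul (hom_pow (hom_X 1) 3)) rfl

lemma hom_d (a b : ℤ) : IsWeightedHomogeneous (fun _ : Fin 2 => 1)
    (df (C a) (C b) (X 0) (X 1) : MvPolynomial (Fin 2) ℤ) 4 :=
  hom_cast ((hom_X 1).mul (hom_g a b)) rfl

lemma hom_q (a : ℤ) : IsWeightedHomogeneous (fun _ : Fin 2 => 1)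
    (3 * X 0 ^ 2 + C a * X 1 ^ 2 : MvPolynomial (Fin 2) ℤ) 2 := by
  refine (hom_cast ((hom_num 3).mul (hom_pow (hom_X 0) 2)) rfl).add ?_
  exact hom_cast ((hom_C a).mul (hom_pow (hom_X 1) 2)) rfl

lemma hom_x (a b : ℤ) : IsWeightedHomogeneous (fun _ : Fin 2 => 1)
    (xf (C a) (C b) (X 0) (X 1) : MvPolynomial (Fin 2) ℤ) 4 := by
  unfold xf
  rw [sub_eq_add_neg]
  refine (hom_cast (hom_pow (hom_q a) 2) rfl).add ?_
  exact (hom_cast (((hom_num 8).mul (hom_X 0)).mul (hom_g a b)) rfl).neg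

lemma hom_y (a b : ℤ) : IsWeightedHomogeneous (fun _ : Fin 2 => 1)
    (yf (C a) (C b) (X 0) (X 1) : MvPolynomial (Fin 2) ℤ) 6 := by
  unfold yf
  rw [sub_eq_add_neg]
  refine (hom_cast ((hom_q a).mul (n := 4) ?_) rfl).add ?_
  · rw [sub_eq_add_neg]
    exact (hom_cast (((hom_num 4).mul (hom_X 0)).mul (hom_g a b)) rfl).add (hom_x a b).neg
  · exact (hom_cast ((hom_num 8).mul (hom_pow (hom_g a b) 2)) rfl).neg

/-- the family of the quadratic twists `y² = x³ + a D² x + b D³`, `D = n (m³ + a m n² + b n³)`, with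
the double of the point `(m g, g²)`, `g = m³ + a m n² + b n³` -/
noncomputable def twF (a b : ℤ) : Family 2 1 where
  w := fun _ => 1
  χ := 2
  n := fun _ _ => 0
  W := ⟨0, 0, 0, C a * df (C a) (C b) (X 0) (X 1) ^ 2, C b * df (C a) (C b) (X 0) (X 1) ^ 3⟩
  x := fun _ _ => xf (C a) (C b) (X 0) (X 1)
  y := fun _ _ => yf (C a) (C b) (X 0) (X 1)
  e := fun _ _ => 2
  h₁ := isWeightedHomogeneous_zero ℤ _ _
  h₂ := isWeightedHomogeneous_zero ℤ _ _
  h₃ := isWeightedHomogeneous_zero ℤ _ _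
  h₄ := hom_cast ((hom_C a).mul (hom_pow (hom_d a b) 2)) rfl
  h₆ := hom_cast ((hom_C b).mul (hom_pow (hom_d a b) 3)) rfl
  hx := fun _ _ => hom_x a b
  hy := fun _ _ => hom_y a b
  he := fun _ _ => hom_num 2

lemma twF_K (a b : ℤ) : (twF a b).K.det = 4 := by
  rw [Matrix.det_fin_one]
  simp [Family.K, twF]

/-- the curve `y² = x³ + a D² x + b D³` -/
def Tw (a b D : ℤ) : WeierstrassCurve ℤ := ⟨0, 0, 0, a * D ^ 2, b * D ^ 3⟩

lemma twF_curve (a b : ℤ) (v : Fin 2 → ℤ) :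
    (twF a b).curve v = Tw a b (df a b (v 0) (v 1)) := by
  ext <;> simp [Family.curve, twF, Tw, df, gf]

lemma twF_x (a b : ℤ) (v : Fin 2 → ℤ) (i j : Fin 2) :
    eval v ((twF a b).x i j) = xf a b (v 0) (v 1) := by
  simp [twF, xf, gf]

lemma twF_y (a b : ℤ) (v : Fin 2 → ℤ) (i j : Fin 2) :
    eval v ((twF a b).y i j) = yf a b (v 0) (v 1) := by
  simp [twF, yf, xf, gf]

lemma twF_e (a b : ℤ) (v : Fin 2 → ℤ) (i j : Fin 2) : eval v ((twF a b).e i j) = 2 := by
  simp [twF]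

lemma Tw_disc (a b D : ℤ) : (Tw a b D).Δ = -16 * (4 * a ^ 3 + 27 * b ^ 2) * D ^ 6 := by
  unfold Tw WeierstrassCurve.Δ WeierstrassCurve.b₂ WeierstrassCurve.b₄ WeierstrassCurve.b₆
    WeierstrassCurve.b₈
  ring

/-- the pairs for which the section is in lowest terms and everywhere nonsingular -/
def Good (a b : ℤ) (v : Fin 2 → ℤ) : Prop :=
  IsCoprime (v 0) (v 1) ∧ df a b (v 0) (v 1) ≠ 0 ∧
    ∀ l : ℕ, l.Prime → (l : ℤ) ∣ 2 * (4 * a ^ 3 + 27 * b ^ 2) → (l : ℤ) ∣ v 1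

theorem marked_of_good {a b : ℤ} (hab : 4 * a ^ 3 + 27 * b ^ 2 ≠ 0) {v : Fin 2 → ℤ}
    (hv : Good a b v) : (twF a b).Marked v := by
  obtain ⟨hc, hd, hl⟩ := hv
  obtain ⟨m, hm⟩ : ∃ m, m = v 0 := ⟨_, rfl⟩
  obtain ⟨n, hn⟩ : ∃ n, n = v 1 := ⟨_, rfl⟩
  rw [← hm, ← hn] at hc hd
  rw [← hn] at hl
  have h2n : (2 : ℤ) ∣ n := by
    have := hl 2 Nat.prime_two ⟨4 * a ^ 3 + 27 * b ^ 2, by push_cast; ring⟩
    exact_mod_cast this
  -- a prime which divides `n` does not divide `m`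
  have hcop : ∀ l : ℕ, l.Prime → (l : ℤ) ∣ n → ¬ (l : ℤ) ∣ m := by
    intro l hp h1 h2
    have h3 := hc.isUnit_of_dvd' h2 h1
    exact (Nat.prime_iff_prime_int.1 hp).not_isUnit h3
  have hxn : ∃ z, xf a b m n = m ^ 4 + n * z := by
    refine ⟨-2 * a * m ^ 2 * n - 8 * b * m * n ^ 2 + a ^ 2 * n ^ 3, ?_⟩
    unfold xf gf
    ring
  have hodd : ¬ (2 : ℤ) ∣ xf a b m n := by
    intro h
    obtain ⟨z, hz⟩ := hxn
    rw [hz] at h
    have h1 : (2 : ℤ) ∣ m ^ 4 := (dvd_add_left (h2n.mul_right z)).1 h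
    exact hcop 2 Nat.prime_two (by exact_mod_cast h2n)
      (by exact_mod_cast Int.prime_two.dvd_of_dvd_pow h1)
  have hEN : EverywhereNonsingular (Tw a b (df a b m n)) (xf a b m n) (yf a b m n) 2 := by
    intro l hp
    by_cases hl2 : l = 2
    · left
      rw [hl2]
      exact dvd_refl _
    right
    rintro ⟨h1, h2⟩
    have hpi : Prime (l : ℤ) := Nat.prime_iff_prime_int.1 hp
    have hnd2 : ¬ (l : ℤ) ∣ 2 := by
      intro h
      have h3 : l ∣ 2 := by exact_mod_cast h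
      exact hl2 ((Nat.prime_dvd_prime_iff_eq hp Nat.prime_two).1 h3)
    have hy : (l : ℤ) ∣ yf a b m n := by
      have h3 : (l : ℤ) ∣ 2 * yf a b m n := by
        simpa [Tw] using h1
      exact (hpi.dvd_or_dvd h3).resolve_left hnd2
    have hx : (l : ℤ) ∣ 3 * xf a b m n ^ 2 + a * df a b m n ^ 2 * 2 ^ 4 := by
      have h3 : (l : ℤ) ∣ -(3 * xf a b m n ^ 2 + a * df a b m n ^ 2 * 2 ^ 4) := by
        simpa [Tw] using h2
      rwa [dvd_neg] at h3
    have hid := curve_id a b m n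
    by_cases hln : (l : ℤ) ∣ n
    · -- multiples of the prime
      obtain ⟨z, hz⟩ := hxn
      have hD : (l : ℤ) ∣ df a b m n := hln.mul_right _
      have h3 : (l : ℤ) ∣ xf a b m n ^ 3 := by
        have h4 : xf a b m n ^ 3 = yf a b m n * yf a b m n - df a b m n *
            (a * df a b m n * xf a b m n * 2 ^ 4 + b * df a b m n ^ 2 * 2 ^ 6) := by
          linear_combination -hid
        rw [h4]
        exact dvd_sub (hy.mul_right _) (hD.mul_right _)
      have h4 := hpi.dvd_of_dvd_pow h3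
      rw [hz] at h4
      have h5 : (l : ℤ) ∣ m ^ 4 := (dvd_add_left (hln.mul_right z)).1 h4
      exact hcop l hp hln (hpi.dvd_of_dvd_pow h5)
    · have hdisc : ¬ (l : ℤ) ∣ 2 * (4 * a ^ 3 + 27 * b ^ 2) := fun h => hln (hl l hp h)
      have hdisc' : ¬ (l : ℤ) ∣ (4 * a ^ 3 + 27 * b ^ 2) := fun h => hdisc (h.mul_left _)
      have h3 : (l : ℤ) ∣ 2 ^ 12 * ((4 * a ^ 3 + 27 * b ^ 2) * df a b m n ^ 6) := by
        have h4 : (2 : ℤ) ^ 12 * ((4 * a ^ 3 + 27 * b ^ 2) * df a b m n ^ 6) =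
            (3 * xf a b m n ^ 2 + a * df a b m n ^ 2 * 2 ^ 4) *
              ((3 * xf a b m n ^ 2 + 4 * (a * df a b m n ^ 2 * 2 ^ 4)) *
                (3 * xf a b m n ^ 2 + a * df a b m n ^ 2 * 2 ^ 4)) -
              yf a b m n * (27 * (xf a b m n ^ 3 + a * df a b m n ^ 2 * 2 ^ 4 * xf a b m n -
                b * df a b m n ^ 3 * 2 ^ 6) * yf a b m n) := by
          linear_combination (27 * (xf a b m n ^ 3 + a * df a b m n ^ 2 * 2 ^ 4 * xf a b m n -
                b * df a b m n ^ 3 * 2 ^ 6)) * hid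
        rw [h4]
        exact dvd_sub (hx.mul_right _) (hy.mul_right _)
      have h4 : (l : ℤ) ∣ df a b m n := by
        rcases hpi.dvd_or_dvd h3 with h | h
        · exact absurd (hpi.dvd_of_dvd_pow h) hnd2
        · rcases hpi.dvd_or_dvd h with h | h
          · exact absurd h hdisc'
          · exact hpi.dvd_of_dvd_pow h
      have h5 : (l : ℤ) ∣ gf a b m n := (hpi.dvd_or_dvd h4).resolve_left hln
      have h6 : (l : ℤ) ∣ xf a b m n := by
        have h7 : xf a b m n ^ 3 = yf a b m n * yf a b m n - df a b m n *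
            (a * df a b m n * xf a b m n * 2 ^ 4 + b * df a b m n ^ 2 * 2 ^ 6) := by
          linear_combination -hid
        apply hpi.dvd_of_dvd_pow (n := 3)
        rw [h7]
        exact dvd_sub (hy.mul_right _) (h4.mul_right _)
      have h7 : (l : ℤ) ∣ 3 * m ^ 2 + a * n ^ 2 := by
        apply hpi.dvd_of_dvd_pow (n := 2)
        have h8 : (3 * m ^ 2 + a * n ^ 2) ^ 2 = xf a b m n + gf a b m n * (8 * m) := by
          unfold xf
          ring
        rw [h8]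
        exact dvd_add h6 (h5.mul_right _)
      have h8 : (l : ℤ) ∣ (4 * a ^ 3 + 27 * b ^ 2) * n ^ 6 := by
        have h9 : (4 * a ^ 3 + 27 * b ^ 2) * n ^ 6 = (3 * m ^ 2 + a * n ^ 2) *
            ((3 * m ^ 2 + 4 * a * n ^ 2) * (3 * m ^ 2 + a * n ^ 2)) -
            gf a b m n * (27 * (m ^ 3 + a * m * n ^ 2 - b * n ^ 3)) := by
          unfold gf
          ring
        rw [h9]
        exact dvd_sub (h7.mul_right _) (h5.mul_right _)
      rcases hpi.dvd_or_dvd h8 with h | h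
      · exact hdisc' h
      · exact hln (hpi.dvd_of_dvd_pow h)
  refine ⟨?_, ?_, ?_⟩
  · rw [twF_curve, Tw_disc, ← hm, ← hn]
    exact mul_ne_zero (mul_ne_zero (by norm_num) hab) (pow_ne_zero _ hd)
  · intro i j _
    rw [twF_curve, twF_x, twF_y, twF_e, ← hm, ← hn]
    refine ⟨two_ne_zero, ?_, ?_, hEN⟩
    · rw [Int.isCoprime_iff_gcd_eq_one]
      have h1 := (Int.prime_two.coprime_iff_not_dvd).2 hodd
      exact Int.isCoprime_iff_gcd_eq_one.1 h1.symm
    · unfold OnCurve Tw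
      have hid := curve_id a b m n
      linear_combination hid
  · intro i j k h1 h2
    exfalso
    omega

end Pool.Agent.Q221.PH
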