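import Pool.Agent.Q221.PH.Tw

/-!
# The section of the family of twists is the double of a point
-/

set_option autoImplicit false

namespace Pool.Agent.Q221.PH

open Pool.Agent.Y732 MvPolynomial WeierstrassCurve

/-- an equality of affine points -/
lemma some_congr {W : WeierstrassCurve.Affine ℚ} {x y x' y' : ℚ} (hx : x = x') (hy : y = y')
    (h : W.Nonsingular x y) (h' : W.Nonsingular x' y') :
    (Affine.Point.some x y h : W.Point) = .some x' y' h' := by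
  subst hx
  subst hy
  rfl

theorem two_P {a b m n : ℤ} (hd : df a b m n ≠ 0)
    (hP : (WQ (Tw a b (df a b m n))).Nonsingular
      ((m * gf a b m n : ℤ) : ℚ) ((gf a b m n ^ 2 : ℤ) : ℚ)) :
    pt (Tw a b (df a b m n)) (xf a b m n) (yf a b m n) 2 =
      Affine.Point.some _ _ hP + Affine.Point.some _ _ hP := by
  obtain ⟨g, hg⟩ : ∃ g, g = gf a b m n := ⟨_, rfl⟩
  have hg0 : g ≠ 0 := by
    intro h
    apply hd
    rw [df, ← hg, h, mul_zero]
  have hgQ : (g : ℚ) ≠ 0 := by exact_mod_cast hg0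
  have a1 : (WQ (Tw a b (df a b m n))).a₁ = 0 := by simp [Tw]
  have a2 : (WQ (Tw a b (df a b m n))).a₂ = 0 := by simp [Tw]
  have a3 : (WQ (Tw a b (df a b m n))).a₃ = 0 := by simp [Tw]
  have a4 : (WQ (Tw a b (df a b m n))).a₄ = (a : ℚ) * ((n : ℚ) * g) ^ 2 := by
    simp [Tw, df, hg]
  have hy : ((gf a b m n ^ 2 : ℤ) : ℚ) ≠ (WQ (Tw a b (df a b m n))).negY
      ((m * gf a b m n : ℤ) : ℚ) ((gf a b m n ^ 2 : ℤ) : ℚ) := by
    rw [Affine.negY, a1, a3, ← hg]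
    push_cast
    intro h
    have h1 : (g : ℚ) ^ 2 = 0 := by linear_combination (1 / 2 : ℚ) * h
    exact hgQ (pow_eq_zero_iff (two_ne_zero) |>.1 h1)
  have hsl : (WQ (Tw a b (df a b m n))).slope ((m * gf a b m n : ℤ) : ℚ) ((m * gf a b m n : ℤ) : ℚ)
      ((gf a b m n ^ 2 : ℤ) : ℚ) ((gf a b m n ^ 2 : ℤ) : ℚ) = (3 * (m : ℚ) ^ 2 + a * n ^ 2) / 2 := by
    rw [Affine.slope_of_Y_ne rfl hy, Affine.negY, a1, a2, a3, a4, ← hg]
    push_cast
    have hne : (g : ℚ) ^ 2 - (-(g : ℚ) ^ 2 - 0 * (m * g) - 0) ≠ 0 := by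
      have h1 : (g : ℚ) ^ 2 - (-(g : ℚ) ^ 2 - 0 * (m * g) - 0) = 2 * (g : ℚ) ^ 2 := by ring
      rw [h1]
      exact mul_ne_zero two_ne_zero (pow_ne_zero 2 hgQ)
    rw [div_eq_div_iff hne two_ne_zero]
    ring
  have hgf : (g : ℚ) = (m : ℚ) ^ 3 + a * m * n ^ 2 + b * n ^ 3 := by
    rw [hg, gf]
    push_cast
    ring
  have hx2 : ((xf a b m n : ℤ) : ℚ) / ((2 : ℤ) : ℚ) ^ 2 =
      (WQ (Tw a b (df a b m n))).addX ((m * gf a b m n : ℤ) : ℚ) ((m * gf a b m n : ℤ) : ℚ)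
        ((WQ (Tw a b (df a b m n))).slope ((m * gf a b m n : ℤ) : ℚ) ((m * gf a b m n : ℤ) : ℚ)
      ((gf a b m n ^ 2 : ℤ) : ℚ) ((gf a b m n ^ 2 : ℤ) : ℚ)) := by
    rw [hsl, Affine.addX, a1, a2, xf, ← hg]
    push_cast
    ring
  have hy2 : ((yf a b m n : ℤ) : ℚ) / ((2 : ℤ) : ℚ) ^ 3 =
      (WQ (Tw a b (df a b m n))).addY ((m * gf a b m n : ℤ) : ℚ) ((m * gf a b m n : ℤ) : ℚ)
        ((gf a b m n ^ 2 : ℤ) : ℚ)
        ((WQ (Tw a b (df a b m n))).slope ((m * gf a b m n : ℤ) : ℚ) ((m * gf a b m n : ℤ) : ℚ)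
      ((gf a b m n ^ 2 : ℤ) : ℚ) ((gf a b m n ^ 2 : ℤ) : ℚ)) := by
    rw [Affine.addY, Affine.negAddY, ← hx2, hsl, Affine.negY, a1, a3, yf, xf, ← hg]
    push_cast
    ring
  rw [Affine.Point.add_self_of_Y_ne hy]
  have hE : (WQ (Tw a b (df a b m n))).Nonsingular (((xf a b m n : ℤ) : ℚ) / ((2 : ℤ) : ℚ) ^ 2)
      (((yf a b m n : ℤ) : ℚ) / ((2 : ℤ) : ℚ) ^ 3) := by
    have := Affine.nonsingular_add hP hP fun hxy => hy hxy.right
    rwa [← hx2, ← hy2] at this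
  rw [pt, dif_pos hE]
  exact some_congr hx2 hy2 _ _

variable {p : ℕ} [hp : Fact p.Prime]

/-- the regulator of the double point -/
theorem Reg_double {G : Type} [AddCommGroup G] {h : G → ℚ_[p]} (hp5 : 5 ≤ p)
    (hq : ∀ P Q, h (P + Q) + h (P - Q) = 2 * h P + 2 * h Q) (P : G) (f : Fin 1 → G)
    (hf : f 0 = P + P) : ‖Reg h f‖ = ‖h P‖ := by
  have h1 : Reg h f = 8 * h P := by
    have e4 := quadratic hq P 4
    have e2 := quadratic hq P 2
    unfold Reg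
    rw [Matrix.det_fin_one, Matrix.of_apply, hf]
    have f4 : P + P + (P + P) = 4 • P := by
      rw [show (4 : ℕ) = 2 + 2 from rfl, add_nsmul, two_nsmul]
    have f2 : P + P = 2 • P := (two_nsmul P).symm
    rw [f4, f2, e4, e2]
    push_cast
    ring
  rw [h1, norm_mul]
  have h8 : ‖(8 : ℚ_[p])‖ = 1 := by
    have h3 : ((8 : ℕ) : ℚ_[p]) = 8 := by norm_num
    rw [← h3, Padic.norm_natCast_eq_one_iff]
    have h4 : Nat.Coprime p (2 ^ 3) := by
      apply Nat.Coprime.pow_right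
      rw [Nat.coprime_primes hp.out Nat.prime_two]
      omega
    exact h4
  rw [h8, one_mul]

end Pool.Agent.Q221.PH
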